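import Mathlib
import Pool.Agent.Lib.MP_377e48_co.CE.Data

/-! Integer checks for the counterexample. -/

namespace Pool.Agent.MP_377e48_co.CE

/-- coordinates -/
abbrev I := Fin 13 × Fin 3

def X (p : I) : ℤ := XL.getD (3 * p.1.val + p.2.val) 0

def Rr (i : Fin 13) : ℤ := RL.getD i.val 0

/-- the tangent pair of equation `e`; `(0, 0)` if the equation fixes the coordinate `e` -/
def ed (e : I) : Fin 13 × Fin 13 := EL.getD (3 * e.1.val + e.2.val) (0, 0)

def a (p e : I) : ℤ := (AL.getD (3 * p.1.val + p.2.val) []).getD (3 * e.1.val + e.2.val) 0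

/-- the Jacobian -/
def d0 (e q : I) : ℤ :=
  if (ed e).1 = (ed e).2 then (if q = e then 100000000 else 0)
  else if q.1 = (ed e).1 then 2 * (X ((ed e).1, q.2) - X ((ed e).2, q.2))
  else if q.1 = (ed e).2 then -(2 * (X ((ed e).1, q.2) - X ((ed e).2, q.2))) else 0

/-- the residual -/
def f0 (e : I) : ℤ :=
  if (ed e).1 = (ed e).2 then 0
  else ∑ k, (X ((ed e).1, k) - X ((ed e).2, k)) ^ 2 - (Rr (ed e).1 + Rr (ed e).2) ^ 2

/-- tangent pairs -/
def adj (i j : Fin 13) : Bool := (EL.contains (i, j) || EL.contains (j, i)) && i != j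

theorem check1 : ∀ p : I, ∑ q : I, |(if p = q then 1000000000000 else 0) -
    ∑ e : I, a p e * d0 e q| ≤ 40000000000 := by decide +kernel

theorem check3 : ∀ p : I, ∑ e : I, |a p e| ≤ 210000000 := by decide +kernel

theorem check5 : ∀ p : I, |∑ e : I, a p e * f0 e| ≤ 5000000000000 := by decide +kernel

theorem checkR : ∀ i : Fin 13, 0 < Rr i := by decide +kernel

/-- all other pairs intersect in interior points, whatever the error `10` -/
theorem checkGap : ∀ i j : Fin 13, adj i j = false → i ≠ j →
    ∑ k, (|X (i, k) - X (j, k)| + 20) ^ 2 < (Rr i + Rr j) ^ 2 := by decide +kernel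

theorem checkInj : ∀ i j : Fin 13, i ≠ j → ∃ k, 20 < |X (i, k) - X (j, k)| := by decide +kernel

/-- every tangent pair occurs in exactly one equation, the other pairs in none -/
theorem checkE : ∀ i j : Fin 13, i ≠ j →
    ∑ e : I, ((if ed e = (i, j) then (1 : ℤ) else 0) + (if ed e = (j, i) then 1 else 0)) =
      if adj i j = true then 1 else 0 := by
  decide +kernel

theorem checkA : ∀ i j : Fin 13, adj i j = true → i ≠ j := by decide +kernel

theorem checkE' : ∀ e : I, (ed e).1 ≠ (ed e).2 → adj (ed e).1 (ed e).2 = true := by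
  decide +kernel

end Pool.Agent.MP_377e48_co.CE
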