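import Mathlib

set_option autoImplicit false

/-!
The tangency graph of the counterexample (13 vertices, 33 edges) is not 4-colourable.
-/

namespace Pool.Agent.MP377e48.CE

/-- The 33 edges of the tangency graph. -/
def E : List (Fin 13 × Fin 13) :=
  [(0, 4), (0, 8), (0, 10), (0, 12), (1, 4), (1, 5), (1, 7), (1, 9), (2, 4), (2, 5), (2, 6),
   (2, 9), (3, 4), (3, 6), (3, 8), (3, 11), (4, 5), (4, 6), (4, 7), (4, 11), (5, 6), (5, 7),
   (5, 9), (5, 10), (6, 7), (6, 8), (6, 12), (7, 10), (8, 9), (9, 10), (9, 12), (10, 11),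
   (11, 12)]

theorem fin4_one : ∀ a b c d x : Fin 4, a ≠ b → a ≠ c → a ≠ d → b ≠ c → b ≠ d → c ≠ d →
    x ≠ a → x ≠ b → x ≠ c → x = d := by
  intro a b c d x
  omega

theorem fin4_two : ∀ a b c d x : Fin 4, a ≠ b → a ≠ c → a ≠ d → b ≠ c → b ≠ d → c ≠ d →
    x ≠ a → x ≠ b → x = c ∨ x = d := by
  intro a b c d x
  omega

theorem fin4_none : ∀ a b c d x : Fin 4, a ≠ b → a ≠ c → a ≠ d → b ≠ c → b ≠ d → c ≠ d →
    x ≠ a → x ≠ b → x ≠ c → x ≠ d → False := by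
  intro a b c d x
  omega

/-- The graph with edge list `E` is not 4-colourable. -/
theorem not_col (f : Fin 13 → Fin 4) (h : ∀ e ∈ E, f e.1 ≠ f e.2) : False := by
  have h45 : f 4 ≠ f 5 := h (4, 5) (by decide)
  have h46 : f 4 ≠ f 6 := h (4, 6) (by decide)
  have h47 : f 4 ≠ f 7 := h (4, 7) (by decide)
  have h56 : f 5 ≠ f 6 := h (5, 6) (by decide)
  have h57 : f 5 ≠ f 7 := h (5, 7) (by decide)
  have h67 : f 6 ≠ f 7 := h (6, 7) (by decide)
  have h14 : f 1 ≠ f 4 := h (1, 4) (by decide)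
  have h15 : f 1 ≠ f 5 := h (1, 5) (by decide)
  have h17 : f 1 ≠ f 7 := h (1, 7) (by decide)
  have h19 : f 1 ≠ f 9 := h (1, 9) (by decide)
  have h24 : f 2 ≠ f 4 := h (2, 4) (by decide)
  have h25 : f 2 ≠ f 5 := h (2, 5) (by decide)
  have h26 : f 2 ≠ f 6 := h (2, 6) (by decide)
  have h29 : f 2 ≠ f 9 := h (2, 9) (by decide)
  have h59 : f 5 ≠ f 9 := h (5, 9) (by decide)
  have h5_10 : f 5 ≠ f 10 := h (5, 10) (by decide)
  have h7_10 : f 7 ≠ f 10 := h (7, 10) (by decide)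
  have h9_10 : f 9 ≠ f 10 := h (9, 10) (by decide)
  have h4_11 : f 4 ≠ f 11 := h (4, 11) (by decide)
  have h10_11 : f 10 ≠ f 11 := h (10, 11) (by decide)
  have h68 : f 6 ≠ f 8 := h (6, 8) (by decide)
  have h89 : f 8 ≠ f 9 := h (8, 9) (by decide)
  have h6_12 : f 6 ≠ f 12 := h (6, 12) (by decide)
  have h9_12 : f 9 ≠ f 12 := h (9, 12) (by decide)
  have h11_12 : f 11 ≠ f 12 := h (11, 12) (by decide)
  have h34 : f 3 ≠ f 4 := h (3, 4) (by decide)
  have h36 : f 3 ≠ f 6 := h (3, 6) (by decide)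
  have h38 : f 3 ≠ f 8 := h (3, 8) (by decide)
  have h3_11 : f 3 ≠ f 11 := h (3, 11) (by decide)
  have h04 : f 0 ≠ f 4 := h (0, 4) (by decide)
  have h08 : f 0 ≠ f 8 := h (0, 8) (by decide)
  have h0_10 : f 0 ≠ f 10 := h (0, 10) (by decide)
  have h0_12 : f 0 ≠ f 12 := h (0, 12) (by decide)
  -- forced colours
  have e1 : f 1 = f 6 := fin4_one (f 4) (f 5) (f 7) (f 6) (f 1) h45 h47 h46 h57 h56 h67.symm
    h14 h15 h17
  have e2 : f 2 = f 7 := fin4_one (f 4) (f 5) (f 6) (f 7) (f 2) h45 h46 h47 h56 h57 h67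
    h24 h25 h26
  have e9 : f 9 = f 4 := fin4_one (f 5) (f 6) (f 7) (f 4) (f 9) h56 h57 h45.symm h67 h46.symm
    h47.symm h59.symm (by rw [← e1]; exact h19.symm) (by rw [← e2]; exact h29.symm)
  have e10 : f 10 = f 6 := fin4_one (f 4) (f 5) (f 7) (f 6) (f 10) h45 h47 h46 h57 h56 h67.symm
    (by rw [← e9]; exact h9_10.symm) h5_10.symm h7_10.symm
  have e11 : f 11 = f 5 ∨ f 11 = f 7 := fin4_two (f 4) (f 6) (f 5) (f 7) (f 11) h46 h45 h47
    h56.symm h67 h57 h4_11.symm (by rw [← e10]; exact h10_11.symm)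
  have e8 : f 8 = f 5 ∨ f 8 = f 7 := fin4_two (f 4) (f 6) (f 5) (f 7) (f 8) h46 h45 h47
    h56.symm h67 h57 (by rw [← e9]; exact h89) h68.symm
  have e12 : f 12 = f 5 ∨ f 12 = f 7 := fin4_two (f 4) (f 6) (f 5) (f 7) (f 12) h46 h45 h47
    h56.symm h67 h57 (by rw [← e9]; exact h9_12.symm) h6_12.symm
  have h06 : f 0 ≠ f 6 := by rw [← e10]; exact h0_10
  rcases e8 with e8 | e8 <;> rcases e11 with e11 | e11
  · -- f 8 = f 11 = f 5, so f 12 = f 7
    have e12' : f 12 = f 7 := by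
      rcases e12 with e | e
      · exact absurd (e11.trans e.symm) h11_12
      · exact e
    exact fin4_none (f 4) (f 5) (f 6) (f 7) (f 0) h45 h46 h47 h56 h57 h67 h04
      (by rw [← e8]; exact h08) h06 (by rw [← e12']; exact h0_12)
  · exact fin4_none (f 4) (f 5) (f 6) (f 7) (f 3) h45 h46 h47 h56 h57 h67 h34
      (by rw [← e8]; exact h38) h36 (by rw [← e11]; exact h3_11)
  · exact fin4_none (f 4) (f 5) (f 6) (f 7) (f 3) h45 h46 h47 h56 h57 h67 h34
      (by rw [← e11]; exact h3_11) h36 (by rw [← e8]; exact h38)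
  · have e12' : f 12 = f 5 := by
      rcases e12 with e | e
      · exact e
      · exact absurd (e11.trans e.symm) h11_12
    exact fin4_none (f 4) (f 5) (f 6) (f 7) (f 0) h45 h46 h47 h56 h57 h67 h04
      (by rw [← e12']; exact h0_12) h06 (by rw [← e8]; exact h08)

end Pool.Agent.MP377e48.CE
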