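import Mathlib

/-! Newton-Kantorovich: a zero of a map close to an approximate zero, with nonsingular Jacobian. -/

namespace Pool.Agent.MP_377e48_co.CE

open Finset

variable {ι : Type} [Fintype ι] [DecidableEq ι]

theorem row_bound (A D0 D1 : ι → ι → ℝ) (ε η α : ℝ)
    (h1 : ∀ p, ∑ q, |(if p = q then 1 else 0) - ∑ e, A p e * D0 e q| ≤ ε)
    (h2 : ∀ e, ∑ q, |D1 e q - D0 e q| ≤ η) (hη : 0 ≤ η)
    (h3 : ∀ p, ∑ e, |A p e| ≤ α) (p : ι) :
    ∑ q, |(if p = q then 1 else 0) - ∑ e, A p e * D1 e q| ≤ ε + α * η := by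
  have key : ∀ q, |(if p = q then 1 else 0) - ∑ e, A p e * D1 e q| ≤
      |(if p = q then 1 else 0) - ∑ e, A p e * D0 e q| + ∑ e, |A p e| * |D1 e q - D0 e q| := by
    intro q
    have e1 : (if p = q then 1 else 0) - ∑ e, A p e * D1 e q =
        ((if p = q then 1 else 0) - ∑ e, A p e * D0 e q) - ∑ e, A p e * (D1 e q - D0 e q) := by
      simp only [mul_sub, sum_sub_distrib]
      ring
    rw [e1]
    refine (abs_sub _ _).trans ?_
    gcongr
    refine (abs_sum_le_sum_abs _ _).trans ?_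
    refine sum_le_sum fun e _ => ?_
    rw [abs_mul]
  calc ∑ q, |(if p = q then 1 else 0) - ∑ e, A p e * D1 e q|
      ≤ ∑ q, (|(if p = q then 1 else 0) - ∑ e, A p e * D0 e q| +
          ∑ e, |A p e| * |D1 e q - D0 e q|) := sum_le_sum fun q _ => key q
    _ = ∑ q, |(if p = q then 1 else 0) - ∑ e, A p e * D0 e q| +
          ∑ e, |A p e| * ∑ q, |D1 e q - D0 e q| := by
        rw [sum_add_distrib, sum_comm]
        simp only [mul_sum]
    _ ≤ ε + ∑ e, |A p e| * η := by
        gcongr with e _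
        · exact h1 p
        · exact h2 e
    _ = ε + (∑ e, |A p e|) * η := by rw [sum_mul]
    _ ≤ ε + α * η := by
        gcongr
        exact h3 p

theorem nk (F : (ι → ℝ) → ι → ℝ) (D : (ι → ℝ) → (ι → ℝ) → ι → ι → ℝ)
    (hFD : ∀ x y e, F x e - F y e = ∑ q, D x y e q * (x q - y q))
    (A D0 : ι → ι → ℝ) (x0 : ι → ℝ) (r ε η α : ℝ) (hr : 0 ≤ r)
    (h1 : ∀ p, ∑ q, |(if p = q then 1 else 0) - ∑ e, A p e * D0 e q| ≤ ε)
    (h2 : ∀ x y, (∀ q, |x q - x0 q| ≤ r) → (∀ q, |y q - x0 q| ≤ r) →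
      ∀ e, ∑ q, |D x y e q - D0 e q| ≤ η) (hη : 0 ≤ η)
    (h3 : ∀ p, ∑ e, |A p e| ≤ α) (h4 : ε + α * η ≤ 1 / 2)
    (h5 : ∀ p, |∑ e, A p e * F x0 e| ≤ r / 2) :
    ∃ x : ι → ℝ, (∀ q, |x q - x0 q| ≤ r) ∧ (∀ e, F x e = 0) ∧
      (Matrix.of (D x x)).det ≠ 0 := by
  set G : (ι → ℝ) → ι → ℝ := fun x p => x p - ∑ e, A p e * F x e with hG
  set s : Set (ι → ℝ) := Metric.closedBall x0 r with hs
  have hmem : ∀ x, x ∈ s ↔ ∀ q, |x q - x0 q| ≤ r := by
    intro x
    rw [hs, Metric.mem_closedBall, dist_pi_le_iff hr]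
    simp only [Real.dist_eq]
  -- the row bound on the ball
  have hrow : ∀ x y, x ∈ s → y ∈ s → ∀ p,
      ∑ q, |(if p = q then 1 else 0) - ∑ e, A p e * D x y e q| ≤ 1 / 2 := by
    intro x y hx hy p
    exact (row_bound A D0 (D x y) ε η α h1 (h2 x y ((hmem x).1 hx) ((hmem y).1 hy)) hη h3 p).trans h4
  have hdiff : ∀ x y p, G x p - G y p =
      ∑ q, ((if p = q then 1 else 0) - ∑ e, A p e * D x y e q) * (x q - y q) := by
    intro x y p
    have e1 : ∑ q, ((if p = q then 1 else 0) - ∑ e, A p e * D x y e q) * (x q - y q) =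
        (x p - y p) - ∑ e, A p e * ∑ q, D x y e q * (x q - y q) := by
      simp only [sub_mul, sum_sub_distrib, ite_mul, one_mul, zero_mul, sum_ite_eq, mem_univ,
        if_true, sum_mul, mul_sum]
      rw [sum_comm]
      simp only [mul_assoc]
    rw [e1]
    simp only [fun e => (hFD x y e).symm]
    simp only [mul_sub, sum_sub_distrib, hG]
    ring
  have hlip : ∀ x y, x ∈ s → y ∈ s → dist (G x) (G y) ≤ 1 / 2 * dist x y := by
    intro x y hx hy
    rw [dist_pi_le_iff (by positivity)]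
    intro p
    rw [Real.dist_eq, hdiff]
    calc |∑ q, ((if p = q then 1 else 0) - ∑ e, A p e * D x y e q) * (x q - y q)|
        ≤ ∑ q, |((if p = q then 1 else 0) - ∑ e, A p e * D x y e q) * (x q - y q)| :=
          abs_sum_le_sum_abs _ _
      _ ≤ ∑ q, |(if p = q then 1 else 0) - ∑ e, A p e * D x y e q| * dist x y := by
          refine sum_le_sum fun q _ => ?_
          rw [abs_mul]
          gcongr
          rw [← Real.dist_eq]
          exact dist_le_pi_dist x y q
      _ = (∑ q, |(if p = q then 1 else 0) - ∑ e, A p e * D x y e q|) * dist x y := by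
          rw [sum_mul]
      _ ≤ 1 / 2 * dist x y := by
          gcongr
          exact hrow x y hx hy p
  have hx0 : x0 ∈ s := Metric.mem_closedBall_self hr
  have hmaps : Set.MapsTo G s s := by
    intro x hx
    have h6 : dist (G x0) x0 ≤ r / 2 := by
      rw [dist_pi_le_iff (by positivity)]
      intro p
      rw [Real.dist_eq]
      have : G x0 p - x0 p = - ∑ e, A p e * F x0 e := by
        simp only [hG]
        ring
      rw [this, abs_neg]
      exact h5 p
    have h7 := hlip x x0 hx hx0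
    have h8 : dist x x0 ≤ r := hx
    rw [hs, Metric.mem_closedBall]
    calc dist (G x) x0 ≤ dist (G x) (G x0) + dist (G x0) x0 := dist_triangle _ _ _
      _ ≤ 1 / 2 * dist x x0 + r / 2 := add_le_add h7 h6
      _ ≤ r := by linarith
  have hcontr : ContractingWith (1 / 2 : NNReal) (hmaps.restrict G s s) := by
    refine ⟨by
      rw [← NNReal.coe_lt_coe]
      norm_num, ?_⟩
    refine LipschitzWith.of_dist_le_mul fun x y => ?_
    have h := hlip x y x.2 y.2
    have h' : dist (hmaps.restrict G s s x) (hmaps.restrict G s s y) = dist (G x) (G y) := rfl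
    rw [h', Subtype.dist_eq x y]
    simpa using h
  obtain ⟨x, hxs, hfix, -⟩ := ContractingWith.exists_fixedPoint' (Metric.isClosed_closedBall.isComplete)
    hmaps hcontr hx0 (edist_ne_top _ _)
  have hAF : ∀ p, ∑ e, A p e * F x e = 0 := by
    intro p
    have h9 : G x p = x p := congrFun hfix p
    simp only [hG] at h9
    linarith
  -- the product matrix is diagonally dominant
  have hdet : (Matrix.of A * Matrix.of (D x x)).det ≠ 0 := by
    apply det_ne_zero_of_sum_row_lt_diag
    intro p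
    have h10 := hrow x x hxs hxs p
    rw [← Finset.add_sum_erase _ _ (mem_univ p)] at h10
    have e2 : ∀ q ∈ univ.erase p, ‖(Matrix.of A * Matrix.of (D x x)) p q‖ =
        |(if p = q then 1 else 0) - ∑ e, A p e * D x x e q| := by
      intro q hq
      rw [if_neg (ne_of_mem_erase hq).symm, zero_sub, abs_neg, Matrix.mul_apply]
      rfl
    rw [sum_congr rfl e2]
    have e3 : (Matrix.of A * Matrix.of (D x x)) p p = ∑ e, A p e * D x x e p := by
      rw [Matrix.mul_apply]
      rfl
    rw [e3, Real.norm_eq_abs]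
    rw [if_pos rfl] at h10
    have h11 : 1 ≤ |1 - ∑ e, A p e * D x x e p| + |∑ e, A p e * D x x e p| := by
      calc (1 : ℝ) = |(1 - ∑ e, A p e * D x x e p) + ∑ e, A p e * D x x e p| := by
            rw [sub_add_cancel, abs_one]
        _ ≤ _ := abs_add_le _ _
    linarith
  rw [Matrix.det_mul] at hdet
  have hA := left_ne_zero_of_mul hdet
  have hD := right_ne_zero_of_mul hdet
  refine ⟨x, (hmem x).1 hxs, ?_, hD⟩
  have h12 : (Matrix.of A).mulVec (F x) = 0 := by
    ext p
    exact hAF p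
  have h13 := Matrix.eq_zero_of_mulVec_eq_zero hA h12
  intro e
  exact congrFun h13 e

end Pool.Agent.MP_377e48_co.CE
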