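import Mathlib
import Pool.Agent.Lib.MP_377e48_co.CE.NK
import Pool.Agent.Lib.MP_377e48_co.CE.Check

/-! The configuration of 13 balls in `ℝ³`. -/

namespace Pool.Agent.MP_377e48_co.CE

open Finset

/-- approximate centres -/
noncomputable def x0 (p : I) : ℝ := (X p : ℝ) / 100000000

/-- radii -/
noncomputable def rho (i : Fin 13) : ℝ := (Rr i : ℝ) / 100000000

/-- approximate inverse of the Jacobian -/
noncomputable def Am (p e : I) : ℝ := (a p e : ℝ) / 10000

/-- Jacobian at `x0` -/
noncomputable def Dm (e q : I) : ℝ := (d0 e q : ℝ) / 100000000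

/-- the equations -/
noncomputable def F (x : I → ℝ) (e : I) : ℝ :=
  if (ed e).1 = (ed e).2 then x e - x0 e
  else ∑ k, (x ((ed e).1, k) - x ((ed e).2, k)) ^ 2 - (rho (ed e).1 + rho (ed e).2) ^ 2

noncomputable def ss (x y : I → ℝ) (u v : Fin 13) (k : Fin 3) : ℝ :=
  (x (u, k) - x (v, k)) + (y (u, k) - y (v, k))

/-- the divided differences -/
noncomputable def Df (x y : I → ℝ) (e q : I) : ℝ :=
  if (ed e).1 = (ed e).2 then (if q = e then 1 else 0)
  else if q.1 = (ed e).1 then ss x y (ed e).1 (ed e).2 q.2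
  else if q.1 = (ed e).2 then -ss x y (ed e).1 (ed e).2 q.2 else 0

theorem sum_split (u v : Fin 13) (huv : u ≠ v) (g h : Fin 3 → ℝ) (z : I → ℝ) :
    ∑ q : I, (if q.1 = u then g q.2 else if q.1 = v then h q.2 else 0) * z q =
      ∑ k, g k * z (u, k) + ∑ k, h k * z (v, k) := by
  rw [Fintype.sum_prod_type]
  have h1 : ∀ i : Fin 13, ∑ k : Fin 3,
      (if (i, k).1 = u then g (i, k).2 else if (i, k).1 = v then h (i, k).2 else 0) * z (i, k) =
      (if i = u then ∑ k, g k * z (u, k) else 0) + (if i = v then ∑ k, h k * z (v, k) else 0) := by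
    intro i
    by_cases hu : i = u
    · subst hu
      simp [huv]
    · by_cases hv : i = v
      · subst hv
        simp [hu]
      · simp [hu, hv]
  rw [sum_congr rfl fun i _ => h1 i, sum_add_distrib, sum_ite_eq' univ u, sum_ite_eq' univ v]
  simp

theorem F_diff (x y : I → ℝ) (e : I) : F x e - F y e = ∑ q, Df x y e q * (x q - y q) := by
  unfold F Df
  by_cases h : (ed e).1 = (ed e).2
  · simp only [if_pos h, ite_mul, one_mul, zero_mul, sum_ite_eq', mem_univ, if_true]
    ring
  · simp only [if_neg h]
    rw [sum_split _ _ h (fun k => ss x y (ed e).1 (ed e).2 k)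
      (fun k => -ss x y (ed e).1 (ed e).2 k) (fun q => x q - y q)]
    rw [← sum_add_distrib]
    have : ∑ k, (ss x y (ed e).1 (ed e).2 k * (x ((ed e).1, k) - y ((ed e).1, k)) +
        -ss x y (ed e).1 (ed e).2 k * (x ((ed e).2, k) - y ((ed e).2, k))) =
        ∑ k, ((x ((ed e).1, k) - x ((ed e).2, k)) ^ 2 - (y ((ed e).1, k) - y ((ed e).2, k)) ^ 2) := by
      refine sum_congr rfl fun k _ => ?_
      unfold ss
      ring
    rw [this, sum_sub_distrib]
    ring

theorem Df_near (x y : I → ℝ) (hx : ∀ q, |x q - x0 q| ≤ 1 / 10000000)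
    (hy : ∀ q, |y q - x0 q| ≤ 1 / 10000000) (e : I) :
    ∑ q, |Df x y e q - Dm e q| ≤ 24 / 10000000 := by
  unfold Df Dm d0
  by_cases h : (ed e).1 = (ed e).2
  · simp only [if_pos h]
    have : ∀ q : I, |(if q = e then (1 : ℝ) else 0) -
        (((if q = e then 100000000 else 0 : ℤ) : ℤ) : ℝ) / 100000000| = 0 := by
      intro q
      by_cases hq : q = e
      · simp [hq]
      · simp [hq]
    rw [sum_congr rfl fun q _ => this q, sum_const_zero]
    norm_num
  · simp only [if_neg h]
    have key : ∀ k, |ss x y (ed e).1 (ed e).2 k -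
        ((2 * (X ((ed e).1, k) - X ((ed e).2, k)) : ℤ) : ℝ) / 100000000| ≤ 4 / 10000000 := by
      intro k
      have e1 : ss x y (ed e).1 (ed e).2 k -
          ((2 * (X ((ed e).1, k) - X ((ed e).2, k)) : ℤ) : ℝ) / 100000000 =
          (x ((ed e).1, k) - x0 ((ed e).1, k)) - (x ((ed e).2, k) - x0 ((ed e).2, k)) +
          ((y ((ed e).1, k) - x0 ((ed e).1, k)) - (y ((ed e).2, k) - x0 ((ed e).2, k))) := by
        unfold ss x0
        push_cast
        ring
      rw [e1]
      have h1 := abs_le.1 (hx ((ed e).1, k))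
      have h2 := abs_le.1 (hx ((ed e).2, k))
      have h3 := abs_le.1 (hy ((ed e).1, k))
      have h4 := abs_le.1 (hy ((ed e).2, k))
      rw [abs_le]
      constructor <;> linarith [h1.1, h1.2, h2.1, h2.2, h3.1, h3.2, h4.1, h4.2]
    calc _ ≤ ∑ q : I, (if q.1 = (ed e).1 then (4 / 10000000 : ℝ) else
          if q.1 = (ed e).2 then 4 / 10000000 else 0) * 1 := by
          refine sum_le_sum fun q _ => ?_
          by_cases h1 : q.1 = (ed e).1
          · simp only [if_pos h1, mul_one]
            exact key q.2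
          · by_cases h2 : q.1 = (ed e).2
            · simp only [if_neg h1, if_pos h2, mul_one]
              rw [← abs_neg]
              refine le_trans (le_of_eq ?_) (key q.2)
              congr 1
              push_cast
              ring
            · simp only [if_neg h1, if_neg h2, mul_one]
              norm_num
      _ = _ := by
          rw [sum_split _ _ h (fun _ => 4 / 10000000) (fun _ => 4 / 10000000) (fun _ => 1)]
          simp only [mul_one, sum_const, card_univ, Fintype.card_fin]
          norm_num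

theorem A_row (p : I) : ∑ q, |(if p = q then 1 else 0) - ∑ e, Am p e * Dm e q| ≤ 4 / 100 := by
  have h1 : ∀ q : I, |(if p = q then (1 : ℝ) else 0) - ∑ e, Am p e * Dm e q| =
      ((|(if p = q then 1000000000000 else 0) - ∑ e : I, a p e * d0 e q| : ℤ) : ℝ) /
        1000000000000 := by
    intro q
    have h2 : (if p = q then (1 : ℝ) else 0) - ∑ e, Am p e * Dm e q =
        (((if p = q then 1000000000000 else 0) - ∑ e : I, a p e * d0 e q : ℤ) : ℝ) /
          1000000000000 := by
      push_cast
      rw [sub_div, sum_div]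
      congr 1
      · split_ifs <;> norm_num
      · refine sum_congr rfl fun e _ => ?_
        unfold Am Dm
        ring
    rw [h2, abs_div, Int.cast_abs]
    congr 1
    norm_num
  rw [sum_congr rfl fun q _ => h1 q, ← sum_div, ← Int.cast_sum]
  rw [div_le_iff₀ (by norm_num)]
  have h3 := check1 p
  have h4 : ((∑ q : I, |(if p = q then 1000000000000 else 0) - ∑ e : I, a p e * d0 e q| : ℤ) : ℝ) ≤
      ((40000000000 : ℤ) : ℝ) := Int.cast_le.2 h3
  refine h4.trans ?_
  norm_num

theorem A_abs (p : I) : ∑ e, |Am p e| ≤ 21000 := by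
  have h1 : ∀ e : I, |Am p e| = ((|a p e| : ℤ) : ℝ) / 10000 := by
    intro e
    unfold Am
    rw [abs_div, Int.cast_abs]
    congr 1
    norm_num
  rw [sum_congr rfl fun q _ => h1 q, ← sum_div, ← Int.cast_sum, div_le_iff₀ (by norm_num)]
  have h4 : ((∑ e : I, |a p e| : ℤ) : ℝ) ≤ ((210000000 : ℤ) : ℝ) := Int.cast_le.2 (check3 p)
  refine h4.trans ?_
  norm_num

theorem A_res (p : I) : |∑ e, Am p e * F x0 e| ≤ 1 / 10000000 / 2 := by
  have h1 : ∀ e : I, Am p e * F x0 e = ((a p e * f0 e : ℤ) : ℝ) / 100000000000000000000 := by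
    intro e
    unfold Am F f0
    by_cases h : (ed e).1 = (ed e).2
    · simp only [if_pos h, sub_self, mul_zero]
      norm_num
    · simp only [if_neg h]
      push_cast
      have : ∑ k, (x0 ((ed e).1, k) - x0 ((ed e).2, k)) ^ 2 =
          (∑ k, ((X ((ed e).1, k) : ℝ) - (X ((ed e).2, k) : ℝ)) ^ 2) / 10000000000000000 := by
        rw [sum_div]
        refine sum_congr rfl fun k _ => ?_
        unfold x0
        ring
      rw [this]
      unfold rho
      ring
  rw [sum_congr rfl fun q _ => h1 q, ← sum_div, ← Int.cast_sum, abs_div, ← Int.cast_abs]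
  have h2 : |(100000000000000000000 : ℝ)| = 100000000000000000000 := by norm_num
  rw [h2, div_le_iff₀ (by norm_num)]
  have h4 : ((|∑ e : I, a p e * f0 e| : ℤ) : ℝ) ≤ ((5000000000000 : ℤ) : ℝ) :=
    Int.cast_le.2 (check5 p)
  refine h4.trans ?_
  norm_num

theorem exists_zero : ∃ x : I → ℝ, (∀ q, |x q - x0 q| ≤ 1 / 10000000) ∧ (∀ e, F x e = 0) ∧
    (Matrix.of (Df x x)).det ≠ 0 := by
  refine nk F Df F_diff Am Dm x0 (1 / 10000000) (4 / 100) (24 / 10000000) 21000 (by norm_num)
    A_row Df_near (by norm_num) A_abs (by norm_num) A_res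

theorem adj_ed {i j : Fin 13} (h : adj i j = true) : ∃ e, ed e = (i, j) ∨ ed e = (j, i) := by
  by_contra hcon
  push Not at hcon
  have h1 := checkE i j (checkA i j h)
  rw [if_pos h] at h1
  have h2 : ∑ e : I, ((if ed e = (i, j) then (1 : ℤ) else 0) + (if ed e = (j, i) then 1 else 0)) =
      0 := by
    refine sum_eq_zero fun e _ => ?_
    rw [if_neg (hcon e).1, if_neg (hcon e).2]
    rfl
  rw [h2] at h1
  exact absurd h1 (by norm_num)

theorem rho_pos (i : Fin 13) : 0 < rho i := by
  unfold rho
  have : (0 : ℝ) < (Rr i : ℝ) := Int.cast_pos.2 (checkR i)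
  positivity

theorem near_diff {x : I → ℝ} (hx : ∀ q, |x q - x0 q| ≤ 1 / 10000000) (i j : Fin 13) (k : Fin 3) :
    |(x (i, k) - x (j, k)) - ((X (i, k) - X (j, k) : ℤ) : ℝ) / 100000000| ≤ 2 / 10000000 := by
  have e1 : (x (i, k) - x (j, k)) - ((X (i, k) - X (j, k) : ℤ) : ℝ) / 100000000 =
      (x (i, k) - x0 (i, k)) - (x (j, k) - x0 (j, k)) := by
    unfold x0
    push_cast
    ring
  rw [e1]
  have h1 := abs_le.1 (hx (i, k))
  have h2 := abs_le.1 (hx (j, k))
  rw [abs_le]
  constructor <;> linarith [h1.1, h1.2, h2.1, h2.2]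

/-- the stress equations in terms of the Jacobian -/
theorem stress_eq (x : I → ℝ) (w : Fin 13 → Fin 13 → ℝ) (hw : ∀ i j, w i j = w j i)
    (h : ∀ j k, ∑ i ∈ univ.filter (fun i => adj i j = true), w i j * (x (i, k) - x (j, k)) = 0)
    (q : I) :
    ∑ e, (if (ed e).1 = (ed e).2 then 0 else w (ed e).1 (ed e).2) * Df x x e q = 0 := by
  obtain ⟨j, k⟩ := q
  set g : Fin 13 → ℝ := fun i => w i j * (x (j, k) - x (i, k)) * 2 with hg
  have h1 : ∀ e, (if (ed e).1 = (ed e).2 then 0 else w (ed e).1 (ed e).2) * Df x x e (j, k) =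
      ∑ i, (((if ed e = (i, j) then (1 : ℤ) else 0) + (if ed e = (j, i) then 1 else 0) : ℤ) : ℝ) *
        g i := by
    intro e
    obtain ⟨u, v, huv⟩ : ∃ u v, ed e = (u, v) := ⟨_, _, rfl⟩
    have h2 : ∀ i, (((if ed e = (i, j) then (1 : ℤ) else 0) +
        (if ed e = (j, i) then 1 else 0) : ℤ) : ℝ) * g i =
        (if i = u then (if v = j then g u else 0) else 0) +
        (if i = v then (if u = j then g v else 0) else 0) := by
      intro i
      rw [huv]
      simp only [Prod.mk.injEq]
      push_cast
      by_cases ha : u = i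
      · subst ha
        by_cases hb : v = j
        · subst hb
          by_cases hc : u = v
          · subst hc
            simp
            ring
          · simp [hc, Ne.symm hc]
        · by_cases hc : u = j
          · subst hc
            by_cases hd : v = u
            · exact absurd hd hb
            · simp [hd, Ne.symm hd]
          · simp [hb, hc]
      · by_cases hb : v = i
        · subst hb
          by_cases hc : u = j
          · subst hc
            simp [ha, Ne.symm ha]
          · simp [ha, hc, Ne.symm ha]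
        · simp [ha, hb, Ne.symm ha, Ne.symm hb]
    rw [sum_congr rfl fun i _ => h2 i, sum_add_distrib, sum_ite_eq' univ u, sum_ite_eq' univ v]
    simp only [mem_univ, if_true]
    unfold Df ss
    rw [huv]
    simp only
    by_cases hc : u = v
    · subst hc
      simp only [if_true, zero_mul]
      by_cases hd : u = j
      · subst hd
        simp [hg]
      · simp [hd]
    · simp only [if_neg hc]
      by_cases hd : j = u
      · subst hd
        simp only [if_true, if_neg (Ne.symm hc), zero_add, hg]
        rw [hw v j]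
        ring
      · by_cases he : j = v
        · subst he
          simp only [if_neg hd, if_true, if_neg hc, add_zero, hg]
          ring
        · simp only [if_neg hd, if_neg he, if_neg (Ne.symm hd), if_neg (Ne.symm he)]
          ring
  rw [sum_congr rfl fun e _ => h1 e, sum_comm]
  have h3 : ∀ i, ∑ e : I, (((if ed e = (i, j) then (1 : ℤ) else 0) +
      (if ed e = (j, i) then 1 else 0) : ℤ) : ℝ) * g i = if adj i j = true then g i else 0 := by
    intro i
    rw [← sum_mul, ← Int.cast_sum]
    by_cases hij : i = j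
    · subst hij
      have h4 : g i = 0 := by simp [hg]
      simp [h4]
    · rw [checkE i j hij]
      split_ifs <;> simp
  rw [sum_congr rfl fun i _ => h3 i, ← sum_filter]
  have h5 : ∑ i ∈ univ.filter (fun i => adj i j = true), g i =
      -2 * ∑ i ∈ univ.filter (fun i => adj i j = true), w i j * (x (i, k) - x (j, k)) := by
    rw [mul_sum]
    refine sum_congr rfl fun i _ => ?_
    simp only [hg]
    ring
  rw [h5, h j k, mul_zero]

/-- The configuration: 13 balls in `ℝ³`. -/
theorem exists_config : ∃ (c : Fin 13 → Fin 3 → ℝ) (ρ : Fin 13 → ℝ), (∀ i, 0 < ρ i) ∧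
    Function.Injective c ∧
    (∀ i j, adj i j = true → ∑ k, (c i k - c j k) ^ 2 = (ρ i + ρ j) ^ 2) ∧
    (∀ i j, i ≠ j → adj i j = false → ∑ k, (c i k - c j k) ^ 2 < (ρ i + ρ j) ^ 2) ∧
    (∀ w : Fin 13 → Fin 13 → ℝ, (∀ i j, w i j = w j i) →
      (∀ j k, ∑ i ∈ univ.filter (fun i => adj i j = true), w i j * (c i k - c j k) = 0) →
      ∀ i j, adj i j = true → w i j = 0) := by
  obtain ⟨x, hx, hF, hdet⟩ := exists_zero
  refine ⟨fun i k => x (i, k), rho, rho_pos, ?_, ?_, ?_, ?_⟩
  · intro i j hij
    by_contra hne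
    obtain ⟨k, hk⟩ := checkInj i j hne
    have h1 := near_diff hx i j k
    have h2 : x (i, k) - x (j, k) = 0 := sub_eq_zero.2 (congrFun hij k)
    rw [h2, zero_sub, abs_neg, abs_div, ← Int.cast_abs] at h1
    have h3 : ((20 : ℤ) : ℝ) < ((|X (i, k) - X (j, k)| : ℤ) : ℝ) := Int.cast_lt.2 hk
    have h4 : |(100000000 : ℝ)| = 100000000 := by norm_num
    rw [h4, div_le_iff₀ (by norm_num)] at h1
    push_cast at h3 h1
    linarith
  · intro i j hij
    obtain ⟨e, he⟩ := adj_ed hij
    have hne := checkA i j hij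
    have h1 := hF e
    unfold F at h1
    rcases he with he | he
    · rw [he] at h1
      simp only at h1
      rw [if_neg hne] at h1
      linarith
    · rw [he] at h1
      simp only at h1
      rw [if_neg (Ne.symm hne)] at h1
      have h2 : ∑ k, (x (i, k) - x (j, k)) ^ 2 = ∑ k, (x (j, k) - x (i, k)) ^ 2 := by
        refine sum_congr rfl fun k _ => ?_
        ring
      rw [h2]
      linarith
  · intro i j hne hij
    have h1 := checkGap i j hij hne
    have h2 : ∑ k, (x (i, k) - x (j, k)) ^ 2 ≤
        ((∑ k, (|X (i, k) - X (j, k)| + 20) ^ 2 : ℤ) : ℝ) / 10000000000000000 := by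
      push_cast
      rw [sum_div]
      refine sum_le_sum fun k _ => ?_
      have h3 := near_diff hx i j k
      have h4 : |x (i, k) - x (j, k)| ≤ (|(X (i, k) : ℝ) - (X (j, k) : ℝ)| + 20) / 100000000 := by
        have h5 : |x (i, k) - x (j, k)| ≤
            |(x (i, k) - x (j, k)) - ((X (i, k) - X (j, k) : ℤ) : ℝ) / 100000000| +
            |((X (i, k) - X (j, k) : ℤ) : ℝ) / 100000000| := by
          have := abs_add_le ((x (i, k) - x (j, k)) - ((X (i, k) - X (j, k) : ℤ) : ℝ) / 100000000)
            (((X (i, k) - X (j, k) : ℤ) : ℝ) / 100000000)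
          rwa [sub_add_cancel] at this
        have h6 : |((X (i, k) - X (j, k) : ℤ) : ℝ) / 100000000| =
            |(X (i, k) : ℝ) - (X (j, k) : ℝ)| / 100000000 := by
          rw [abs_div]
          push_cast
          congr 1
          norm_num
        rw [h6] at h5
        refine h5.trans ?_
        rw [add_div]
        linarith
      calc (x (i, k) - x (j, k)) ^ 2 = |x (i, k) - x (j, k)| ^ 2 := (sq_abs _).symm
        _ ≤ ((|(X (i, k) : ℝ) - (X (j, k) : ℝ)| + 20) / 100000000) ^ 2 := by
            gcongr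
        _ = _ := by
            rw [div_pow]
            norm_num
    refine lt_of_le_of_lt h2 ?_
    have h7 : ((∑ k, (|X (i, k) - X (j, k)| + 20) ^ 2 : ℤ) : ℝ) < (((Rr i + Rr j) ^ 2 : ℤ) : ℝ) :=
      Int.cast_lt.2 h1
    have h8 : (rho i + rho j) ^ 2 = (((Rr i + Rr j) ^ 2 : ℤ) : ℝ) / 10000000000000000 := by
      unfold rho
      push_cast
      ring
    rw [h8]
    exact div_lt_div_of_pos_right h7 (by norm_num)
  · intro w hw h i j hij
    have h1 : Matrix.vecMul (fun e : I => if (ed e).1 = (ed e).2 then 0 else w (ed e).1 (ed e).2)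
        (Matrix.of (Df x x)) = 0 := by
      ext q
      exact stress_eq x w hw h q
    have h2 := Matrix.eq_zero_of_vecMul_eq_zero hdet h1
    obtain ⟨e, he⟩ := adj_ed hij
    have hne := checkA i j hij
    have h3 := congrFun h2 e
    rcases he with he | he
    · simp only [he, if_neg hne] at h3
      exact h3
    · simp only [he, if_neg (Ne.symm hne)] at h3
      rw [hw]
      exact h3

end Pool.Agent.MP_377e48_co.CE
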