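import Mathlib
import Pool.Agent.Lib.MP_377e48_co.CE.Col

set_option autoImplicit false

/-!
From a realisation of the graph `E` by pairwise intersecting balls in `ℝ^3` with nonsingular
rigidity matrix to the frozen negation.
-/

namespace Pool.Agent.MP377e48.CE

open Finset

/-- Adjacency in the graph with edge list `E`. -/
def Adj (i j : Fin 13) : Prop := (i, j) ∈ E ∨ (j, i) ∈ E

instance (i j : Fin 13) : Decidable (Adj i j) := by unfold Adj; infer_instance

theorem adj_symm {i j : Fin 13} : Adj i j → Adj j i := fun h => h.symm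

theorem E_lt (e : Fin 13 × Fin 13) (he : e ∈ E) : e.1 < e.2 := by
  simp only [E, List.mem_cons, List.not_mem_nil, or_false] at he
  rcases he with h | h | h | h | h | h | h | h | h | h | h | h | h | h | h | h | h | h | h | h |
    h | h | h | h | h | h | h | h | h | h | h | h | h <;> (subst h; decide)

theorem not_adj_self (i : Fin 13) : ¬ Adj i i := by
  intro h
  rcases h with h | h
  · exact lt_irrefl _ (E_lt _ h)
  · exact lt_irrefl _ (E_lt _ h)

/-- The entry of the rigidity matrix for the pair `p`, in the column (vertex `v`,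
coordinate `k`). -/
noncomputable def D (c : Fin 13 → Fin 3 → ℝ) (p : Fin 13 × Fin 13) (v : Fin 13) (k : Fin 3) : ℝ :=
  if p.1 = v then 2 * (c p.1 k - c p.2 k) else if p.2 = v then 2 * (c p.2 k - c p.1 k) else 0

/-- A sum over the edges at `v` is a sum over the neighbours of `v`. -/
theorem sum_edges (F : Fin 13 → Fin 13 → ℝ) (v : Fin 13) :
    (E.map (fun p => if p.1 = v then F p.1 p.2 else if p.2 = v then F p.2 p.1 else 0)).sum
      = ∑ i : Fin 13, if Adj v i then F v i else 0 := by
  unfold Adj
  fin_cases v <;> simp [E, Fin.sum_univ_succ]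

/-- The wrapper: a realisation of `E` gives the frozen negation. -/
theorem wrap (c : Fin 13 → Fin 3 → ℝ) (ρ : Fin 13 → ℝ) (hρ : ∀ i, 0 < ρ i)
    (hE : ∀ e ∈ E, ∑ k, (c e.1 k - c e.2 k) ^ 2 = (ρ e.1 + ρ e.2) ^ 2)
    (hN : ∀ i j : Fin 13, i < j → (i, j) ∉ E →
      0 < ∑ k, (c i k - c j k) ^ 2 ∧ ∑ k, (c i k - c j k) ^ 2 < (ρ i + ρ j) ^ 2)
    (Ef : Fin 33 → Fin 13 × Fin 13) (hEf : List.ofFn Ef = E)
    (hS : ∀ w : Fin 33 → ℝ, (∀ (v : Fin 13) (k : Fin 3), ∑ e, w e * D c (Ef e) v k = 0) →
      ∀ e, w e = 0) :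
    ¬ (∀ (d : ℕ), 1 ≤ d →
      ∀ (n : ℕ) (c : Fin n → EuclideanSpace ℝ (Fin d)) (ρ : Fin n → ℝ),
        Function.Injective c →
        (∀ i, 0 < ρ i) →
        (∀ i j, dist (c i) (c j) ≤ ρ i + ρ j) →
        (∀ w : Fin n → Fin n → ℝ,
          (∀ i j, w i j = w j i) →
          (∀ j, ∑ i ∈ Finset.univ.filter (fun i => dist (c i) (c j) = ρ i + ρ j),
              w i j • (c i - c j) = 0) →
          ∀ i j, dist (c i) (c j) = ρ i + ρ j → w i j = 0) →
        (SimpleGraph.fromRel (fun i j : Fin n => dist (c i) (c j) = ρ i + ρ j)).Colorable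
          (d + 1)) := by
  intro hmain
  set C : Fin 13 → EuclideanSpace ℝ (Fin 3) := fun i => WithLp.toLp 2 (c i) with hC
  have hsym : ∀ i j, ∑ k, (c i k - c j k) ^ 2 = ∑ k, (c j k - c i k) ^ 2 := by
    intro i j
    exact Finset.sum_congr rfl fun k _ => by ring
  have hdist : ∀ i j, dist (C i) (C j) = √(∑ k, (c i k - c j k) ^ 2) := by
    intro i j
    rw [EuclideanSpace.dist_eq]
    congr 1
    refine Finset.sum_congr rfl fun k _ => ?_
    rw [Real.dist_eq, sq_abs]
  -- squares of distances
  have hadj : ∀ i j, Adj i j → ∑ k, (c i k - c j k) ^ 2 = (ρ i + ρ j) ^ 2 := by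
    intro i j h
    rcases h with h | h
    · exact hE _ h
    · rw [hsym, hE _ h]
      ring
  have hnadj : ∀ i j, i ≠ j → ¬ Adj i j →
      0 < ∑ k, (c i k - c j k) ^ 2 ∧ ∑ k, (c i k - c j k) ^ 2 < (ρ i + ρ j) ^ 2 := by
    intro i j hij h
    rcases lt_or_gt_of_ne hij with h' | h'
    · exact hN i j h' fun h'' => h (Or.inl h'')
    · have := hN j i h' fun h'' => h (Or.inr h'')
      rw [hsym, add_comm (ρ i)]
      exact this
  have hpos : ∀ i j, 0 < ρ i + ρ j := fun i j => add_pos (hρ i) (hρ j)
  have hiff : ∀ i j, dist (C i) (C j) = ρ i + ρ j ↔ Adj i j := by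
    intro i j
    by_cases hij : i = j
    · subst hij
      rw [dist_self]
      constructor
      · intro h
        exact absurd h (hpos i i).ne
      · intro h
        exact absurd h (not_adj_self i)
    · constructor
      · intro h
        by_contra hna
        have h1 := (hnadj i j hij hna).2
        rw [hdist] at h
        have h2 : ∑ k, (c i k - c j k) ^ 2 = (ρ i + ρ j) ^ 2 := by
          rw [← h, Real.sq_sqrt]
          exact Finset.sum_nonneg fun k _ => sq_nonneg _
        exact absurd h2 h1.ne
      · intro h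
        rw [hdist, hadj i j h, Real.sqrt_sq (hpos i j).le]
  have hle : ∀ i j, dist (C i) (C j) ≤ ρ i + ρ j := by
    intro i j
    by_cases hij : i = j
    · subst hij
      rw [dist_self]
      exact (hpos i i).le
    · by_cases ha : Adj i j
      · exact ((hiff i j).2 ha).le
      · rw [hdist]
        exact Real.sqrt_le_iff.2 ⟨(hpos i j).le, (hnadj i j hij ha).2.le⟩
  have hinj : Function.Injective C := by
    intro i j hc
    by_contra hij
    have hd : dist (C i) (C j) = 0 := by rw [hc, dist_self]
    rw [hdist] at hd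
    have h0 : ∑ k, (c i k - c j k) ^ 2 = 0 := by
      have := Real.sqrt_eq_zero'.1 hd
      exact le_antisymm this (Finset.sum_nonneg fun k _ => sq_nonneg _)
    by_cases ha : Adj i j
    · rw [hadj i j ha] at h0
      exact absurd h0 (pow_pos (hpos i j) 2).ne'
    · exact absurd h0 (hnadj i j hij ha).1.ne'
  have hstress : ∀ w : Fin 13 → Fin 13 → ℝ,
      (∀ i j, w i j = w j i) →
      (∀ j, ∑ i ∈ Finset.univ.filter (fun i => dist (C i) (C j) = ρ i + ρ j),
          w i j • (C i - C j) = 0) →
      ∀ i j, dist (C i) (C j) = ρ i + ρ j → w i j = 0 := by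
    intro w hw hsum
    have hz : ∀ e, w (Ef e).1 (Ef e).2 = 0 := by
      refine hS (fun e => w (Ef e).1 (Ef e).2) ?_
      intro v k
      have h1 : ∑ e, w (Ef e).1 (Ef e).2 * D c (Ef e) v k
          = (E.map (fun p => w p.1 p.2 * D c p v k)).sum := by
        rw [← hEf, List.map_ofFn, List.sum_ofFn]
        rfl
      have h2 : (E.map (fun p => w p.1 p.2 * D c p v k)).sum
          = (E.map (fun p => if p.1 = v then (w p.1 p.2 * (2 * (c p.1 k - c p.2 k)))
              else if p.2 = v then (w p.2 p.1 * (2 * (c p.2 k - c p.1 k))) else 0)).sum := by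
        congr 1
        refine List.map_congr_left fun p _ => ?_
        unfold D
        split_ifs
        · rfl
        · rw [hw p.1 p.2]
        · ring
      have h3 := sum_edges (fun a b => w a b * (2 * (c a k - c b k))) v
      rw [h1, h2, h3]
      have h4 := congrArg (fun x : EuclideanSpace ℝ (Fin 3) => x k) (hsum v)
      simp only at h4
      have h5 : (∑ i ∈ Finset.univ.filter (fun i => dist (C i) (C v) = ρ i + ρ v),
          w i v • (C i - C v)) k = ∑ i : Fin 13, if Adj v i then w i v * (c i k - c v k) else 0 := by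
        rw [Finset.sum_filter]
        simp only [hiff]
        have : ∀ s : Finset (Fin 13), (∑ i ∈ s, if Adj i v then w i v • (C i - C v) else 0) k
            = ∑ i ∈ s, if Adj v i then w i v * (c i k - c v k) else 0 := by
          intro s
          induction s using Finset.induction_on with
          | empty => simp
          | insert a s ha ih =>
            rw [Finset.sum_insert ha, Finset.sum_insert ha, ← ih]
            have : (if Adj a v then w a v • (C a - C v) else 0 : EuclideanSpace ℝ (Fin 3)) k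
                = if Adj v a then w a v * (c a k - c v k) else 0 := by
              by_cases h : Adj a v
              · rw [if_pos h, if_pos (adj_symm h)]
                simp [hC]
              · rw [if_neg h, if_neg fun h' => h (adj_symm h')]
                simp
            rw [← this]
            simp
        exact this _
      rw [h5] at h4
      have h6 : (0 : EuclideanSpace ℝ (Fin 3)) k = 0 := rfl
      rw [h6] at h4
      have h7 : ∑ i : Fin 13, (if Adj v i then w v i * (2 * (c v k - c i k)) else 0)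
          = -2 * ∑ i : Fin 13, if Adj v i then w i v * (c i k - c v k) else 0 := by
        rw [Finset.mul_sum]
        refine Finset.sum_congr rfl fun i _ => ?_
        split_ifs
        · rw [hw v i]; ring
        · ring
      rw [h7, h4, mul_zero]
    intro i j hij
    rw [hiff] at hij
    have hmem : ∀ p ∈ E, w p.1 p.2 = 0 := by
      intro p hp
      rw [← hEf, List.mem_ofFn] at hp
      obtain ⟨e, rfl⟩ := hp
      exact hz e
    rcases hij with h | h
    · exact hmem _ h
    · rw [hw]
      exact hmem _ h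
  obtain ⟨f⟩ := hmain 3 (by norm_num) 13 C ρ hinj hρ hle hstress
  refine not_col (fun i => f i) ?_
  intro e he
  refine f.valid ?_
  rw [SimpleGraph.fromRel_adj]
  exact ⟨(E_lt e he).ne, Or.inl ((hiff _ _).2 (Or.inl he))⟩

/-- The wrapper, with the determinant of a square submatrix of the rigidity matrix. -/
theorem wrap_det (c : Fin 13 → Fin 3 → ℝ) (ρ : Fin 13 → ℝ) (hρ : ∀ i, 0 < ρ i)
    (hE : ∀ e ∈ E, ∑ k, (c e.1 k - c e.2 k) ^ 2 = (ρ e.1 + ρ e.2) ^ 2)
    (hN : ∀ i j : Fin 13, i < j → (i, j) ∉ E →
      0 < ∑ k, (c i k - c j k) ^ 2 ∧ ∑ k, (c i k - c j k) ^ 2 < (ρ i + ρ j) ^ 2)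
    (Ef : Fin 33 → Fin 13 × Fin 13) (hEf : List.ofFn Ef = E)
    (unk : Fin 33 → Fin 13 × Fin 3)
    (hdet : (Matrix.of fun e u : Fin 33 => D c (Ef e) (unk u).1 (unk u).2).det ≠ 0) :
    ¬ (∀ (d : ℕ), 1 ≤ d →
      ∀ (n : ℕ) (c : Fin n → EuclideanSpace ℝ (Fin d)) (ρ : Fin n → ℝ),
        Function.Injective c →
        (∀ i, 0 < ρ i) →
        (∀ i j, dist (c i) (c j) ≤ ρ i + ρ j) →
        (∀ w : Fin n → Fin n → ℝ,
          (∀ i j, w i j = w j i) →
          (∀ j, ∑ i ∈ Finset.univ.filter (fun i => dist (c i) (c j) = ρ i + ρ j),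
              w i j • (c i - c j) = 0) →
          ∀ i j, dist (c i) (c j) = ρ i + ρ j → w i j = 0) →
        (SimpleGraph.fromRel (fun i j : Fin n => dist (c i) (c j) = ρ i + ρ j)).Colorable
          (d + 1)) := by
  refine wrap c ρ hρ hE hN Ef hEf ?_
  intro w hw e
  have h : Matrix.vecMul w (Matrix.of fun e u : Fin 33 => D c (Ef e) (unk u).1 (unk u).2) = 0 := by
    funext u
    simp only [Matrix.vecMul, dotProduct, Matrix.of_apply, Pi.zero_apply]
    exact hw _ _
  exact congrFun (Matrix.eq_zero_of_vecMul_eq_zero hdet h) e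

end Pool.Agent.MP377e48.CE
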