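import Mathlib
import Pool.Agent.Lib.MP_377e48_co.CE.Wrap

set_option autoImplicit false

/-!
From the existence theorem for the configuration to the frozen negation.
-/

namespace Pool.Agent.MP377e48.CE

open Finset

/-- The wrapper in the form of the existence theorem of `Main.lean`. -/
theorem wrap_config (adj : Fin 13 → Fin 13 → Bool) (hadjE : ∀ e ∈ E, adj e.1 e.2 = true)
    (hself : ∀ i, adj i i = false)
    (hcfg : ∃ (c : Fin 13 → Fin 3 → ℝ) (ρ : Fin 13 → ℝ), (∀ i, 0 < ρ i) ∧
      Function.Injective c ∧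
      (∀ i j, adj i j = true → ∑ k, (c i k - c j k) ^ 2 = (ρ i + ρ j) ^ 2) ∧
      (∀ i j, i ≠ j → adj i j = false → ∑ k, (c i k - c j k) ^ 2 < (ρ i + ρ j) ^ 2) ∧
      (∀ w : Fin 13 → Fin 13 → ℝ, (∀ i j, w i j = w j i) →
        (∀ j k, ∑ i ∈ Finset.univ.filter (fun i => adj i j = true), w i j * (c i k - c j k) = 0) →
        ∀ i j, adj i j = true → w i j = 0)) :
    ¬ (∀ (d : ℕ), 1 ≤ d →
      ∀ (n : ℕ) (c : Fin n → EuclideanSpace ℝ (Fin d)) (ρ : Fin n → ℝ),
        Function.Injective c →
        (∀ i, 0 < ρ i) →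
        (∀ i j, dist (c i) (c j) ≤ ρ i + ρ j) →
        (∀ w : Fin n → Fin n → ℝ,
          (∀ i j, w i j = w j i) →
          (∀ j, ∑ i ∈ Finset.univ.filter (fun i => dist (c i) (c j) = ρ i + ρ j),
              w i j • (c i - c j) = 0) →
          ∀ i j, dist (c i) (c j) = ρ i + ρ j → w i j = 0) →
        (SimpleGraph.fromRel (fun i j : Fin n => dist (c i) (c j) = ρ i + ρ j)).Colorable
          (d + 1)) := by
  intro hmain
  obtain ⟨c, ρ, hρ, hci, hadj, hnadj, hst⟩ := hcfg
  set C : Fin 13 → EuclideanSpace ℝ (Fin 3) := fun i => WithLp.toLp 2 (c i) with hC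
  have hdist : ∀ i j, dist (C i) (C j) = √(∑ k, (c i k - c j k) ^ 2) := by
    intro i j
    rw [EuclideanSpace.dist_eq]
    congr 1
    refine Finset.sum_congr rfl fun k _ => ?_
    rw [Real.dist_eq, sq_abs]
  have hpos : ∀ i j, 0 < ρ i + ρ j := fun i j => add_pos (hρ i) (hρ j)
  have hiff : ∀ i j, dist (C i) (C j) = ρ i + ρ j ↔ adj i j = true := by
    intro i j
    by_cases hij : i = j
    · subst hij
      rw [dist_self, hself]
      constructor
      · intro h
        exact absurd h (hpos i i).ne
      · intro h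
        exact absurd h (by decide)
    · constructor
      · intro h
        by_contra hna
        have h1 := hnadj i j hij (by simpa using hna)
        rw [hdist] at h
        have h2 : ∑ k, (c i k - c j k) ^ 2 = (ρ i + ρ j) ^ 2 := by
          rw [← h, Real.sq_sqrt]
          exact Finset.sum_nonneg fun k _ => sq_nonneg _
        exact absurd h2 h1.ne
      · intro h
        rw [hdist, hadj i j h, Real.sqrt_sq (hpos i j).le]
  have hle : ∀ i j, dist (C i) (C j) ≤ ρ i + ρ j := by
    intro i j
    by_cases hij : i = j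
    · subst hij
      rw [dist_self]
      exact (hpos i i).le
    · by_cases ha : adj i j = true
      · exact ((hiff i j).2 ha).le
      · rw [hdist]
        exact Real.sqrt_le_iff.2 ⟨(hpos i j).le, (hnadj i j hij (by simpa using ha)).le⟩
  have hinj : Function.Injective C := by
    intro i j hc
    exact hci ((WithLp.toLp_injective 2) hc)
  have hstress : ∀ w : Fin 13 → Fin 13 → ℝ,
      (∀ i j, w i j = w j i) →
      (∀ j, ∑ i ∈ Finset.univ.filter (fun i => dist (C i) (C j) = ρ i + ρ j),
          w i j • (C i - C j) = 0) →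
      ∀ i j, dist (C i) (C j) = ρ i + ρ j → w i j = 0 := by
    intro w hw hsum i j hij
    refine hst w hw ?_ i j ((hiff i j).1 hij)
    intro v k
    have h4 := congrArg (fun x : EuclideanSpace ℝ (Fin 3) => x k) (hsum v)
    simp only [hiff] at h4
    have h5 : ∀ s : Finset (Fin 13), (∑ i ∈ s, w i v • (C i - C v)) k
        = ∑ i ∈ s, w i v * (c i k - c v k) := by
      intro s
      induction s using Finset.induction_on with
      | empty => simp
      | insert a s ha ih =>
        rw [Finset.sum_insert ha, Finset.sum_insert ha, ← ih]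
        simp [hC]
    rw [← h5]
    exact h4
  obtain ⟨f⟩ := hmain 3 (by norm_num) 13 C ρ hinj hρ hle hstress
  refine not_col (fun i => f i) ?_
  intro e he
  refine f.valid ?_
  rw [SimpleGraph.fromRel_adj]
  exact ⟨(E_lt e he).ne, Or.inl ((hiff _ _).2 (hadjE e he))⟩

end Pool.Agent.MP377e48.CE
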